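import Pool.Agent.FOG.Fam

/-!
# First-order families of commutative groups over extensions of prime fields have definable orders
-/

set_option autoImplicit false

noncomputable section

namespace Pool.Agent.FOG

open Polynomial Pool.Agent.PRc Pool.Agent.Grz Pool.Agent.ECD Pool.Agent.Cov
open scoped Classical

/-- an element of the base field -/
theorem ext_const {k : Type} [Field k] {s : ℕ} (hs : 0 < s) (h : k[X]) (n : ℕ) :
    PRc.ext h (fun l : Fin s => if l = ⟨0, hs⟩ then (n : k) else 0) = (n : AdjoinRoot h) := by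
  unfold PRc.ext
  rw [Finset.sum_eq_single ⟨0, hs⟩]
  · simp
  · intro l _ hl
    beta_reduce
    rw [if_neg hl, C_0, zero_mul]
  · intro h1
    exact absurd (Finset.mem_univ _) h1

section

variable {δ ε : Type} {s : ℕ} (hs : 0 < s) {D e : ℕ} (eδ : Fin D ≃ δ × Fin s)
  (eε : Fin e ≃ ε ⊕ Fin s)

/-- coordinates of the first block -/
private def j1 {κ : Type} (eδ : Fin D ≃ δ × Fin s) (i : δ) (l : Fin s) : FF (Fin D ⊕ κ) :=
  fun _ _ u => u (Sum.inl (eδ.symm (i, l)))

private def j2 {κ κ' : Type} (eδ : Fin D ≃ δ × Fin s) (i : δ) (l : Fin s) :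
    FF (κ' ⊕ Fin D ⊕ κ) :=
  fun _ _ u => u (Sum.inr (Sum.inl (eδ.symm (i, l))))

/-- the parameters -/
private def jp {κ : Type} (J : Fin e → κ) (i : ε) (l : Fin s) : FF κ :=
  fun _ _ u => if l = ⟨0, hs⟩ then u (J (eε.symm (Sum.inl i))) else 0

private def jh {κ : Type} (J : Fin e → κ) (l : Fin s) : FF κ :=
  fun _ _ u => u (J (eε.symm (Sum.inr l)))

private theorem j1_pr {κ : Type} (i : δ) (l : Fin s) : PRF (j1 (κ := κ) eδ i l) := PRF.var _
private theorem j2_pr {κ κ' : Type} (i : δ) (l : Fin s) : PRF (j2 (κ := κ) (κ' := κ') eδ i l) :=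
  PRF.var _

private theorem jp_pr {κ : Type} (J : Fin e → κ) (i : ε) (l : Fin s) :
    PRF (jp hs eε J i l) := by
  by_cases h : l = ⟨0, hs⟩
  · exact (PRF.var (J (eε.symm (Sum.inl i)))).congr fun k _ x => by
      unfold jp
      rw [if_pos h]
  · exact PRF.zero.congr fun k _ x => by
      unfold jp
      rw [if_neg h]

private theorem jh_pr {κ : Type} (J : Fin e → κ) (l : Fin s) : PRF (jh (ε := ε) eε J l) :=
  PRF.var _

/-- substitution for relations and functions with one block -/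
private def sX : ((δ ⊕ ε) × Fin s) ⊕ Fin s → FF (Fin D ⊕ Fin e)
  | .inl (.inl i, l) => j1 eδ i l
  | .inl (.inr i, l) => jp hs eε Sum.inr i l
  | .inr l => jh eε Sum.inr l

private def sE : ((δ ⊕ δ ⊕ ε) × Fin s) ⊕ Fin s → FF (Fin D ⊕ Fin D ⊕ Fin e)
  | .inl (.inl i, l) => j1 eδ i l
  | .inl (.inr (.inl i), l) => j2 eδ i l
  | .inl (.inr (.inr i), l) => jp hs eε (fun j => Sum.inr (Sum.inr j)) i l
  | .inr l => jh eε (fun j => Sum.inr (Sum.inr j)) l

private theorem sX_pr (j : ((δ ⊕ ε) × Fin s) ⊕ Fin s) : PRF (sX hs eδ eε j) := by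
  rcases j with ⟨i | i, l⟩ | l
  · exact j1_pr eδ i l
  · exact jp_pr hs eε _ i l
  · exact jh_pr eε _ l

private theorem sE_pr (j : ((δ ⊕ δ ⊕ ε) × Fin s) ⊕ Fin s) : PRF (sE hs eδ eε j) := by
  rcases j with ⟨i | i | i, l⟩ | l
  · exact j1_pr eδ i l
  · exact j2_pr eδ i l
  · exact jp_pr hs eε (fun j => Sum.inr (Sum.inr j)) i l
  · exact jh_pr eε (fun j => Sum.inr (Sum.inr j)) l

/-- the vector over the extension with the given coordinates -/
def up {k : Type} [Field k] (h : k[X]) (x : Fin D → k) : δ → AdjoinRoot h :=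
  fun i => PRc.ext h fun l => x (eδ.symm (i, l))

theorem up_surj {k : Type} [Field k] {h : k[X]} (hm : h.Monic) (hd : h.natDegree = s)
    (y : δ → AdjoinRoot h) : ∃ x : Fin D → k, up eδ h x = y := by
  choose w hw using fun i => ext_surj hm hd (y i)
  refine ⟨fun j => w (eδ j).1 (eδ j).2, ?_⟩
  funext i
  rw [← hw i]
  unfold up
  congr 1
  funext l
  show w (eδ (eδ.symm (i, l))).1 (eδ (eδ.symm (i, l))).2 = w i l
  rw [Equiv.apply_symm_apply]

end

/-- **The order of a first-order family of commutative groups over extensions of prime fields is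
definable.** -/
theorem card_fo {δ ε : Type} [Finite δ] [Finite ε] (s : ℕ) (hs : 0 < s) {X : FR (δ ⊕ ε)}
    {E : FR (δ ⊕ δ ⊕ ε)} {F : δ → FF (δ ⊕ δ ⊕ ε)} (hX : PRQ X) (hE : PRQ E)
    (hF : ∀ i, PRF (F i)) :
    ∃ N : ℕ → (Fin s → ℕ) → (ε → ℕ) → ℕ,
      (∀ {n : ℕ} {p : (Fin n → ℕ) → ℕ} {c : Fin s → (Fin n → ℕ) → ℕ}
        {a : ε → (Fin n → ℕ) → ℕ}, DFun n p → (∀ l, DFun n (c l)) → (∀ i, DFun n (a i)) →
        DFun n (fun v => N (p v) (fun l => c l v) fun i => a i v)) ∧
      ∀ (p : ℕ) [Fact p.Prime] (h : (ZMod p)[X]) [Fact (Irreducible h)], h.Monic →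
        h.natDegree = s → ∀ (c : Fin s → ℕ), (∀ l : Fin s, (c l : ZMod p) = h.coeff l) →
        ∀ (a : ε → ℕ) (G : Type) [CommGroup G] (cls : (δ → AdjoinRoot h) → G),
        (∀ g, ∃ x, X (AdjoinRoot h) (Sum.elim x fun i => (a i : AdjoinRoot h)) ∧ cls x = g) →
        (∀ x y, X (AdjoinRoot h) (Sum.elim x fun i => (a i : AdjoinRoot h)) →
          X (AdjoinRoot h) (Sum.elim y fun i => (a i : AdjoinRoot h)) →
          X (AdjoinRoot h) (Sum.elim (fun i => F i (AdjoinRoot h)
            (Sum.elim x (Sum.elim y fun i => (a i : AdjoinRoot h))))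
            fun i => (a i : AdjoinRoot h)) ∧
          cls (fun i => F i (AdjoinRoot h)
            (Sum.elim x (Sum.elim y fun i => (a i : AdjoinRoot h)))) = cls x * cls y) →
        (∀ x y, X (AdjoinRoot h) (Sum.elim x fun i => (a i : AdjoinRoot h)) →
          X (AdjoinRoot h) (Sum.elim y fun i => (a i : AdjoinRoot h)) →
          (E (AdjoinRoot h) (Sum.elim x (Sum.elim y fun i => (a i : AdjoinRoot h))) ↔
            cls x = cls y)) →
        N p c a = Nat.card G := by
  obtain ⟨D, ⟨eδ'⟩⟩ := Finite.exists_equiv_fin (δ × Fin s)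
  obtain ⟨e, ⟨eε'⟩⟩ := Finite.exists_equiv_fin (ε ⊕ Fin s)
  set eδ := eδ'.symm
  set eε := eε'.symm
  obtain ⟨QX, hQX, eX⟩ := prq_ext hX s hs
  obtain ⟨QE, hQE, eE⟩ := prq_ext hE s hs
  choose QF hQF eF' using fun i => prf_ext (hF i) s hs
  have h1 : PRQ (ι := Fin D ⊕ Fin e) (fun k _ u => QX k fun j => sX hs eδ eε j k u) :=
    hQX.comp (sX_pr hs eδ eε)
  have h2 : PRQ (ι := Fin D ⊕ Fin D ⊕ Fin e) (fun k _ u => QE k fun j => sE hs eδ eε j k u) :=
    hQE.comp (sE_pr hs eδ eε)
  have h3 : ∀ j, PRF (ι := Fin D ⊕ Fin D ⊕ Fin e)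
      (fun k _ u => QF (eδ j).1 (eδ j).2 k fun j => sE hs eδ eε j k u) :=
    fun j => (hQF (eδ j).1 (eδ j).2).comp (sE_pr hs eδ eε)
  obtain ⟨N, hN, key⟩ := card_fo1 (d := D) (e := e) h1 h2 (F := fun j k _ u =>
    QF (eδ j).1 (eδ j).2 k fun j => sE hs eδ eε j k u) h3
  refine ⟨fun p c a => N (Fin.cons p fun j => Sum.elim a c (eε j)), ?_, ?_⟩
  · intro n p c a hp hc ha
    refine (hN.comp (h := fun j v => (Fin.cons (p v) (fun j => Sum.elim (fun i => a i v)
      (fun l => c l v) (eε j)) : Fin (e + 1) → ℕ) j) ?_)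
    intro j
    refine Fin.cases ?_ (fun j => ?_) j
    · exact hp
    · show DFun n (fun v => Sum.elim (fun i => a i v) (fun l => c l v) (eε j))
      rcases eε j with i | l
      · exact ha i
      · exact hc l
  · intro p hp h hi hm hd c hc a G _ cls k1 k2 k3
    have ex : ∀ x : Fin D → ZMod p,
        (QX (ZMod p) fun j => sX hs eδ eε j (ZMod p) (Sum.elim x fun i =>
          (((Sum.elim a c (eε i) : ℕ)) : ZMod p))) ↔
        X (AdjoinRoot h) (Sum.elim (up eδ h x) fun i => (a i : AdjoinRoot h)) := by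
      intro x
      have h4 := eX (ZMod p) h hm hd (fun i => sX hs eδ eε (Sum.inl i) (ZMod p)
        (Sum.elim x fun i => (((Sum.elim a c (eε i) : ℕ)) : ZMod p)))
      have h5 : (fun i => PRc.ext h fun l => (fun i => sX hs eδ eε (Sum.inl i) (ZMod p)
          (Sum.elim x fun i => (((Sum.elim a c (eε i) : ℕ)) : ZMod p))) (i, l)) =
          Sum.elim (up eδ h x) fun i => (a i : AdjoinRoot h) := by
        funext i
        rcases i with i | i
        · rfl
        · show PRc.ext h (fun l => jp hs eε Sum.inr i l (ZMod p)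
            (Sum.elim x fun i => (((Sum.elim a c (eε i) : ℕ)) : ZMod p))) = (a i : AdjoinRoot h)
          rw [← ext_const hs h (a i)]
          congr 1
          funext l
          unfold jp
          simp
      rw [h5] at h4
      rw [h4]
      refine iff_of_eq (congrArg (QX (ZMod p)) ?_)
      funext j
      rcases j with j | l
      · rfl
      · show (((Sum.elim a c (eε (eε.symm (Sum.inr l))) : ℕ)) : ZMod p) = h.coeff l
        rw [Equiv.apply_symm_apply]
        exact hc l
    have e5 : ∀ x y : Fin D → ZMod p, (fun i => PRc.ext h fun l =>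
        (fun i => sE hs eδ eε (Sum.inl i) (ZMod p) (Sum.elim x (Sum.elim y fun i =>
          (((Sum.elim a c (eε i) : ℕ)) : ZMod p)))) (i, l)) =
        Sum.elim (up eδ h x) (Sum.elim (up eδ h y) fun i => (a i : AdjoinRoot h)) := by
      intro x y
      funext i
      rcases i with i | i | i
      · rfl
      · rfl
      · show PRc.ext h (fun l => jp hs eε (fun j => Sum.inr (Sum.inr j)) i l (ZMod p)
          (Sum.elim x (Sum.elim y fun i => (((Sum.elim a c (eε i) : ℕ)) : ZMod p)))) =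
            (a i : AdjoinRoot h)
        rw [← ext_const hs h (a i)]
        congr 1
        funext l
        unfold jp
        simp
    have e6 : ∀ x y : Fin D → ZMod p, (Sum.elim (fun i => sE hs eδ eε (Sum.inl i) (ZMod p)
        (Sum.elim x (Sum.elim y fun i => (((Sum.elim a c (eε i) : ℕ)) : ZMod p))))
        fun l : Fin s => h.coeff l) = fun j => sE hs eδ eε j (ZMod p)
          (Sum.elim x (Sum.elim y fun i => (((Sum.elim a c (eε i) : ℕ)) : ZMod p))) := by
      intro x y
      funext j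
      rcases j with j | l
      · rfl
      · show h.coeff l = (((Sum.elim a c (eε (eε.symm (Sum.inr l))) : ℕ)) : ZMod p)
        rw [Equiv.apply_symm_apply]
        exact (hc l).symm
    have ee : ∀ x y : Fin D → ZMod p,
        (QE (ZMod p) fun j => sE hs eδ eε j (ZMod p) (Sum.elim x (Sum.elim y fun i =>
          (((Sum.elim a c (eε i) : ℕ)) : ZMod p)))) ↔
        E (AdjoinRoot h) (Sum.elim (up eδ h x) (Sum.elim (up eδ h y)
          fun i => (a i : AdjoinRoot h))) := by
      intro x y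
      have h4 := eE (ZMod p) h hm hd (fun i => sE hs eδ eε (Sum.inl i) (ZMod p)
        (Sum.elim x (Sum.elim y fun i => (((Sum.elim a c (eε i) : ℕ)) : ZMod p))))
      rw [e5, e6] at h4
      exact h4.symm
    have ef : ∀ x y : Fin D → ZMod p, up eδ h (eF (fun j k _ u =>
        QF (eδ j).1 (eδ j).2 k fun j => sE hs eδ eε j k u) (ZMod p)
        (fun i => (((Sum.elim a c (eε i) : ℕ)) : ZMod p)) x y) =
        fun i => F i (AdjoinRoot h) (Sum.elim (up eδ h x) (Sum.elim (up eδ h y)
          fun i => (a i : AdjoinRoot h))) := by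
      intro x y
      funext i
      have h4 := eF' i (ZMod p) h hm hd (fun i => sE hs eδ eε (Sum.inl i) (ZMod p)
        (Sum.elim x (Sum.elim y fun i => (((Sum.elim a c (eε i) : ℕ)) : ZMod p))))
      rw [e5, e6] at h4
      rw [h4]
      unfold up eF
      congr 1
      funext l
      show QF (eδ (eδ.symm (i, l))).1 (eδ (eδ.symm (i, l))).2 (ZMod p) _ = _
      rw [Equiv.apply_symm_apply]
    have hv0 : Fact ((Fin.cons p (fun j => Sum.elim a c (eε j)) : Fin (e + 1) → ℕ) 0).Prime := hp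
    refine key (Fin.cons p fun j => Sum.elim a c (eε j)) G (fun x => cls (up eδ h x)) ?_ ?_ ?_
    · intro g
      obtain ⟨y, hy, e1⟩ := k1 g
      obtain ⟨x, rfl⟩ := up_surj eδ hm hd y
      exact ⟨x, (ex x).2 hy, e1⟩
    · intro x y hx hy
      obtain ⟨h4, h5⟩ := k2 (up eδ h x) (up eδ h y) ((ex x).1 hx) ((ex y).1 hy)
      rw [← ef] at h4 h5
      exact ⟨(ex _).2 h4, h5⟩
    · intro x y hx hy
      exact (ee x y).trans (k3 _ _ ((ex x).1 hx) ((ex y).1 hy))

end Pool.Agent.FOG
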