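import Pool.Agent.PRc.Ex
import Pool.Agent.PRc.Ext

/-!
# First-order relations over `k[T]/(h)` as first-order relations over `k`
-/

set_option autoImplicit false

noncomputable section

namespace Pool.Agent.FOG

open Polynomial Pool.Agent.PRc
open scoped Classical

/-- **Restriction of scalars for first-order relations.** -/
theorem prq_ext {κ : Type} {P : FR κ} (hP : PRQ P) (s : ℕ) (hs : 0 < s) :
    ∃ Q : FR ((κ × Fin s) ⊕ Fin s), PRQ Q ∧
      ∀ (k : Type) [Field k] (h : k[X]) [Fact (Irreducible h)], h.Monic → h.natDegree = s →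
        ∀ z : κ × Fin s → k,
          (P (AdjoinRoot h) (fun i => ext h fun l => z (i, l)) ↔
            Q k (Sum.elim z fun l => h.coeff l)) := by
  induction hP with
  | base hP =>
    obtain ⟨Q, hQ, e⟩ := prd_ext hP s hs
    exact ⟨Q, PRQ.base hQ, e⟩
  | not _ ih =>
    obtain ⟨Q, hQ, e⟩ := ih
    exact ⟨_, hQ.not, fun k _ h _ hm hd z => not_congr (e k h hm hd z)⟩
  | and _ _ ih1 ih2 =>
    obtain ⟨Q1, hQ1, e1⟩ := ih1
    obtain ⟨Q2, hQ2, e2⟩ := ih2
    exact ⟨_, hQ1.and hQ2, fun k _ h _ hm hd z =>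
      and_congr (e1 k h hm hd z) (e2 k h hm hd z)⟩
  | @ex ι μ _ P _ ih =>
    obtain ⟨Q, hQ, e⟩ := ih
    have h1 : PRQ (ι := ((ι × Fin s) ⊕ Fin s) ⊕ (μ × Fin s)) (fun k _ x => Q k
        (fun j => Sum.elim (fun i : (ι ⊕ μ) × Fin s => Sum.elim
          (fun i' => x (Sum.inl (Sum.inl (i', i.2)))) (fun i' => x (Sum.inr (i', i.2))) i.1)
          (fun l => x (Sum.inl (Sum.inr l))) j)) := by
      refine hQ.comp (G := fun j k _ x => Sum.elim (fun i : (ι ⊕ μ) × Fin s => Sum.elim
          (fun i' => x (Sum.inl (Sum.inl (i', i.2)))) (fun i' => x (Sum.inr (i', i.2))) i.1)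
          (fun l => x (Sum.inl (Sum.inr l))) j) ?_
      rintro (⟨i | i, l⟩ | l)
      · exact PRF.var _
      · exact PRF.var _
      · exact PRF.var _
    refine ⟨_, h1.ex, fun k _ h _ hm hd z => ?_⟩
    constructor
    · rintro ⟨y, hy⟩
      choose w hw using fun j => ext_surj hm hd (y j)
      refine ⟨fun i => w i.1 i.2, ?_⟩
      have h2 := e k h hm hd (fun i => Sum.elim (fun i' => z (i', i.2))
        (fun i' => w i' i.2) i.1)
      have h3 : (fun i => ext h fun l => (fun i : (ι ⊕ μ) × Fin s =>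
          Sum.elim (fun i' => z (i', i.2)) (fun i' => w i' i.2) i.1) (i, l)) =
          Sum.elim (fun i => ext h fun l => z (i, l)) y := by
        funext i
        rcases i with i | i
        · rfl
        · exact hw i
      rw [h3] at h2
      exact h2.1 hy
    · rintro ⟨w, hw⟩
      refine ⟨fun j => ext h fun l => w (j, l), ?_⟩
      have h2 := e k h hm hd (fun i => Sum.elim (fun i' => z (i', i.2))
        (fun i' => w (i', i.2)) i.1)
      have h3 : (fun i => ext h fun l => (fun i : (ι ⊕ μ) × Fin s =>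
          Sum.elim (fun i' => z (i', i.2)) (fun i' => w (i', i.2)) i.1) (i, l)) =
          Sum.elim (fun i => ext h fun l => z (i, l)) (fun j => ext h fun l => w (j, l)) := by
        funext i
        rcases i with i | i <;> rfl
      rw [h3] at h2
      exact h2.2 hw

end Pool.Agent.FOG
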