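import Pool.Agent.FOG.Grp
import Pool.Agent.FOG.Ext
import Pool.Agent.PRc.Alg
import Pool.Agent.Cov.ToG

/-!
# The axioms of a commutative group as a first-order relation
-/

set_option autoImplicit false

noncomputable section

namespace Pool.Agent.FOG

open Polynomial Pool.Agent.PRc Pool.Agent.Grz Pool.Agent.ECD Pool.Agent.Cov
open scoped Classical

variable {d e : ℕ}

/-- the partial equivalence relation on vectors over `k` -/
def eR (E : FR (Fin d ⊕ Fin d ⊕ Fin e)) (k : Type) [Field k] (a : Fin e → k)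
    (x y : Fin d → k) : Prop := E k (Sum.elim x (Sum.elim y a))

/-- the law on vectors over `k` -/
def eF (F : Fin d → FF (Fin d ⊕ Fin d ⊕ Fin e)) (k : Type) [Field k] (a : Fin e → k)
    (x y : Fin d → k) : Fin d → k := fun i => F i k (Sum.elim x (Sum.elim y a))

theorem eR_comp {E : FR (Fin d ⊕ Fin d ⊕ Fin e)} (hE : PRQ E) {ι : Type} {A B : Fin d → FF ι}
    {C : Fin e → FF ι} (hA : ∀ i, PRF (A i)) (hB : ∀ i, PRF (B i)) (hC : ∀ i, PRF (C i)) :
    PRQ (fun k _ x => eR E k (fun i => C i k x) (fun i => A i k x) (fun i => B i k x)) := by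
  refine (hE.comp (G := Sum.elim A (Sum.elim B C)) ?_).congr fun k _ x => ?_
  · rintro (i | i | i)
    · exact hA i
    · exact hB i
    · exact hC i
  · refine iff_of_eq (congrArg (E k) ?_)
    funext j
    rcases j with i | i | i <;> rfl

theorem eF_comp {F : Fin d → FF (Fin d ⊕ Fin d ⊕ Fin e)} (hF : ∀ i, PRF (F i)) {ι : Type}
    {A B : Fin d → FF ι} {C : Fin e → FF ι} (hA : ∀ i, PRF (A i)) (hB : ∀ i, PRF (B i))
    (hC : ∀ i, PRF (C i)) (i : Fin d) :
    PRF (fun k _ x => eF F k (fun i => C i k x) (fun i => A i k x) (fun i => B i k x) i) := by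
  refine ((hF i).comp (G := Sum.elim A (Sum.elim B C)) ?_).congr fun k _ x => ?_
  · rintro (i | i | i)
    · exact hA i
    · exact hB i
    · exact hC i
  · refine congrArg (F i k) ?_
    funext j
    rcases j with i | i | i <;> rfl

/-- the axioms -/
def gR (E : FR (Fin d ⊕ Fin d ⊕ Fin e)) (F : Fin d → FF (Fin d ⊕ Fin d ⊕ Fin e)) : FR (Fin e) :=
  fun k _ a => GRel (eR E k a) (eF F k a)

private theorem q1 {E : FR (Fin d ⊕ Fin d ⊕ Fin e)} (hE : PRQ E) :
    PRQ (fun k _ (a : Fin e → k) => ∀ x y, eR E k a x y → eR E k a y x) := by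
  have h : PRQ (ι := (Fin e ⊕ Fin d) ⊕ Fin d) (fun k _ u =>
      eR E k (fun i => u (.inl (.inl i))) (fun i => u (.inl (.inr i))) (fun i => u (.inr i)) →
      eR E k (fun i => u (.inl (.inl i))) (fun i => u (.inr i)) (fun i => u (.inl (.inr i)))) :=
    (eR_comp hE (fun _ => PRF.var _) (fun _ => PRF.var _) (fun _ => PRF.var _)).imp
      (eR_comp hE (fun _ => PRF.var _) (fun _ => PRF.var _) (fun _ => PRF.var _))
  exact h.all.all

private theorem q2 {E : FR (Fin d ⊕ Fin d ⊕ Fin e)} (hE : PRQ E) :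
    PRQ (fun k _ (a : Fin e → k) => ∀ x y z, eR E k a x y → eR E k a y z → eR E k a x z) := by
  have h : PRQ (ι := ((Fin e ⊕ Fin d) ⊕ Fin d) ⊕ Fin d) (fun k _ u =>
      eR E k (fun i => u (.inl (.inl (.inl i)))) (fun i => u (.inl (.inl (.inr i))))
        (fun i => u (.inl (.inr i))) →
      eR E k (fun i => u (.inl (.inl (.inl i)))) (fun i => u (.inl (.inr i)))
        (fun i => u (.inr i)) →
      eR E k (fun i => u (.inl (.inl (.inl i)))) (fun i => u (.inl (.inl (.inr i))))
        (fun i => u (.inr i))) :=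
    (eR_comp hE (fun _ => PRF.var _) (fun _ => PRF.var _) (fun _ => PRF.var _)).imp
      ((eR_comp hE (fun _ => PRF.var _) (fun _ => PRF.var _) (fun _ => PRF.var _)).imp
      (eR_comp hE (fun _ => PRF.var _) (fun _ => PRF.var _) (fun _ => PRF.var _)))
  exact h.all.all.all

private theorem q3 {E : FR (Fin d ⊕ Fin d ⊕ Fin e)} {F : Fin d → FF (Fin d ⊕ Fin d ⊕ Fin e)}
    (hE : PRQ E) (hF : ∀ i, PRF (F i)) :
    PRQ (fun k _ (a : Fin e → k) => ∀ x x' y y', eR E k a x x' → eR E k a y y' →
      eR E k a (eF F k a x y) (eF F k a x' y')) := by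
  have h : PRQ (ι := (((Fin e ⊕ Fin d) ⊕ Fin d) ⊕ Fin d) ⊕ Fin d) (fun k _ u =>
      eR E k (fun i => u (.inl (.inl (.inl (.inl i))))) (fun i => u (.inl (.inl (.inl (.inr i)))))
        (fun i => u (.inl (.inl (.inr i)))) →
      eR E k (fun i => u (.inl (.inl (.inl (.inl i))))) (fun i => u (.inl (.inr i)))
        (fun i => u (.inr i)) →
      eR E k (fun i => u (.inl (.inl (.inl (.inl i)))))
        (fun j => eF F k (fun i => u (.inl (.inl (.inl (.inl i)))))
          (fun i => u (.inl (.inl (.inl (.inr i))))) (fun i => u (.inl (.inr i))) j)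
        (fun j => eF F k (fun i => u (.inl (.inl (.inl (.inl i)))))
          (fun i => u (.inl (.inl (.inr i)))) (fun i => u (.inr i)) j)) :=
    (eR_comp hE (fun _ => PRF.var _) (fun _ => PRF.var _) (fun _ => PRF.var _)).imp
      ((eR_comp hE (fun _ => PRF.var _) (fun _ => PRF.var _) (fun _ => PRF.var _)).imp
      (eR_comp hE
        (eF_comp hF (fun _ => PRF.var _) (fun _ => PRF.var _) (fun _ => PRF.var _))
        (eF_comp hF (fun _ => PRF.var _) (fun _ => PRF.var _) (fun _ => PRF.var _))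
        (fun _ => PRF.var _)))
  exact h.all.all.all.all

private theorem q4 {E : FR (Fin d ⊕ Fin d ⊕ Fin e)} {F : Fin d → FF (Fin d ⊕ Fin d ⊕ Fin e)}
    (hE : PRQ E) (hF : ∀ i, PRF (F i)) :
    PRQ (fun k _ (a : Fin e → k) => ∀ x y z, eR E k a x x → eR E k a y y → eR E k a z z →
      eR E k a (eF F k a (eF F k a x y) z) (eF F k a x (eF F k a y z))) := by
  have h : PRQ (ι := ((Fin e ⊕ Fin d) ⊕ Fin d) ⊕ Fin d) (fun k _ u =>
      eR E k (fun i => u (.inl (.inl (.inl i)))) (fun i => u (.inl (.inl (.inr i))))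
        (fun i => u (.inl (.inl (.inr i)))) →
      eR E k (fun i => u (.inl (.inl (.inl i)))) (fun i => u (.inl (.inr i)))
        (fun i => u (.inl (.inr i))) →
      eR E k (fun i => u (.inl (.inl (.inl i)))) (fun i => u (.inr i)) (fun i => u (.inr i)) →
      eR E k (fun i => u (.inl (.inl (.inl i))))
        (fun j => eF F k (fun i => u (.inl (.inl (.inl i))))
          (fun l => eF F k (fun i => u (.inl (.inl (.inl i)))) (fun i => u (.inl (.inl (.inr i))))
            (fun i => u (.inl (.inr i))) l) (fun i => u (.inr i)) j)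
        (fun j => eF F k (fun i => u (.inl (.inl (.inl i)))) (fun i => u (.inl (.inl (.inr i))))
          (fun l => eF F k (fun i => u (.inl (.inl (.inl i)))) (fun i => u (.inl (.inr i)))
            (fun i => u (.inr i)) l) j)) :=
    (eR_comp hE (fun _ => PRF.var _) (fun _ => PRF.var _) (fun _ => PRF.var _)).imp
      ((eR_comp hE (fun _ => PRF.var _) (fun _ => PRF.var _) (fun _ => PRF.var _)).imp
      ((eR_comp hE (fun _ => PRF.var _) (fun _ => PRF.var _) (fun _ => PRF.var _)).imp
      (eR_comp hE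
        (eF_comp hF (eF_comp hF (fun _ => PRF.var _) (fun _ => PRF.var _) (fun _ => PRF.var _))
          (fun _ => PRF.var _) (fun _ => PRF.var _))
        (eF_comp hF (fun _ => PRF.var _)
          (eF_comp hF (fun _ => PRF.var _) (fun _ => PRF.var _) (fun _ => PRF.var _))
          (fun _ => PRF.var _))
        (fun _ => PRF.var _))))
  exact h.all.all.all

private theorem q5 {E : FR (Fin d ⊕ Fin d ⊕ Fin e)} {F : Fin d → FF (Fin d ⊕ Fin d ⊕ Fin e)}
    (hE : PRQ E) (hF : ∀ i, PRF (F i)) :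
    PRQ (fun k _ (a : Fin e → k) => ∀ x y, eR E k a x x → eR E k a y y →
      eR E k a (eF F k a x y) (eF F k a y x)) := by
  have h : PRQ (ι := (Fin e ⊕ Fin d) ⊕ Fin d) (fun k _ u =>
      eR E k (fun i => u (.inl (.inl i))) (fun i => u (.inl (.inr i)))
        (fun i => u (.inl (.inr i))) →
      eR E k (fun i => u (.inl (.inl i))) (fun i => u (.inr i)) (fun i => u (.inr i)) →
      eR E k (fun i => u (.inl (.inl i)))
        (fun j => eF F k (fun i => u (.inl (.inl i))) (fun i => u (.inl (.inr i)))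
          (fun i => u (.inr i)) j)
        (fun j => eF F k (fun i => u (.inl (.inl i))) (fun i => u (.inr i))
          (fun i => u (.inl (.inr i))) j)) :=
    (eR_comp hE (fun _ => PRF.var _) (fun _ => PRF.var _) (fun _ => PRF.var _)).imp
      ((eR_comp hE (fun _ => PRF.var _) (fun _ => PRF.var _) (fun _ => PRF.var _)).imp
      (eR_comp hE
        (eF_comp hF (fun _ => PRF.var _) (fun _ => PRF.var _) (fun _ => PRF.var _))
        (eF_comp hF (fun _ => PRF.var _) (fun _ => PRF.var _) (fun _ => PRF.var _))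
        (fun _ => PRF.var _)))
  exact h.all.all

private theorem q6 {E : FR (Fin d ⊕ Fin d ⊕ Fin e)} {F : Fin d → FF (Fin d ⊕ Fin d ⊕ Fin e)}
    (hE : PRQ E) (hF : ∀ i, PRF (F i)) :
    PRQ (fun k _ (a : Fin e → k) => ∃ o, eR E k a o o ∧ ∀ x, eR E k a x x →
      eR E k a (eF F k a o x) x ∧ ∃ y, eR E k a y y ∧ eR E k a (eF F k a y x) o) := by
  have h1 : PRQ (ι := ((Fin e ⊕ Fin d) ⊕ Fin d) ⊕ Fin d) (fun k _ u =>
      eR E k (fun i => u (.inl (.inl (.inl i)))) (fun i => u (.inr i)) (fun i => u (.inr i)) ∧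
      eR E k (fun i => u (.inl (.inl (.inl i))))
        (fun j => eF F k (fun i => u (.inl (.inl (.inl i)))) (fun i => u (.inr i))
          (fun i => u (.inl (.inr i))) j)
        (fun i => u (.inl (.inl (.inr i))))) :=
    (eR_comp hE (fun _ => PRF.var _) (fun _ => PRF.var _) (fun _ => PRF.var _)).and
      (eR_comp hE
        (eF_comp hF (fun _ => PRF.var _) (fun _ => PRF.var _) (fun _ => PRF.var _))
        (fun _ => PRF.var _) (fun _ => PRF.var _))
  have h2 : PRQ (ι := (Fin e ⊕ Fin d) ⊕ Fin d) (fun k _ u =>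
      eR E k (fun i => u (.inl (.inl i))) (fun i => u (.inr i)) (fun i => u (.inr i)) →
      eR E k (fun i => u (.inl (.inl i)))
        (fun j => eF F k (fun i => u (.inl (.inl i))) (fun i => u (.inl (.inr i)))
          (fun i => u (.inr i)) j)
        (fun i => u (.inr i)) ∧ ∃ y : Fin d → k,
        eR E k (fun i => u (.inl (.inl i))) y y ∧
        eR E k (fun i => u (.inl (.inl i)))
          (eF F k (fun i => u (.inl (.inl i))) y (fun i => u (.inr i)))
          (fun i => u (.inl (.inr i)))) := by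
    refine (eR_comp hE (fun _ => PRF.var _) (fun _ => PRF.var _) (fun _ => PRF.var _)).imp
      ((eR_comp hE
        (eF_comp hF (fun _ => PRF.var _) (fun _ => PRF.var _) (fun _ => PRF.var _))
        (fun _ => PRF.var _) (fun _ => PRF.var _)).and ?_)
    exact h1.ex
  have h3 : PRQ (ι := Fin e ⊕ Fin d) (fun k _ u =>
      eR E k (fun i => u (.inl i)) (fun i => u (.inr i)) (fun i => u (.inr i)) ∧
      ∀ x : Fin d → k, eR E k (fun i => u (.inl i)) x x →
      eR E k (fun i => u (.inl i))
        (eF F k (fun i => u (.inl i)) (fun i => u (.inr i)) x) x ∧ ∃ y : Fin d → k,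
        eR E k (fun i => u (.inl i)) y y ∧
        eR E k (fun i => u (.inl i))
          (eF F k (fun i => u (.inl i)) y x) (fun i => u (.inr i))) :=
    (eR_comp hE (fun _ => PRF.var _) (fun _ => PRF.var _) (fun _ => PRF.var _)).and h2.all
  exact h3.ex

/-- **The axioms are first-order.** -/
theorem prq_gR {E : FR (Fin d ⊕ Fin d ⊕ Fin e)} {F : Fin d → FF (Fin d ⊕ Fin d ⊕ Fin e)}
    (hE : PRQ E) (hF : ∀ i, PRF (F i)) : PRQ (gR E F) := by
  refine ((q1 hE).and ((q2 hE).and ((q3 hE hF).and ((q4 hE hF).and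
    ((q5 hE hF).and (q6 hE hF)))))).congr fun k _ a => ?_
  constructor
  · rintro ⟨h1, h2, h3, h4, h5, h6⟩
    exact ⟨h1, h2, h3, h4, h5, h6⟩
  · intro h
    exact ⟨h.symm, h.trans, h.compat, h.assoc, h.comm, h.unit⟩

end Pool.Agent.FOG
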