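import Pool.Agent.FOG.Def

/-!
# First-order families of commutative groups over prime fields have definable orders
-/

set_option autoImplicit false

noncomputable section

namespace Pool.Agent.FOG

open Polynomial Pool.Agent.PRc Pool.Agent.Grz Pool.Agent.ECD Pool.Agent.Cov
open scoped Classical

variable {d e : ℕ}

/-- the parameters are good -/
def Good (E : FR (Fin d ⊕ Fin d ⊕ Fin e)) (F : Fin d → FF (Fin d ⊕ Fin d ⊕ Fin e))
    (v : Fin (e + 1) → ℕ) : Prop :=
  ∃ h : (v 0).Prime, haveI := Fact.mk h; gR E F (ZMod (v 0)) (fun i => (v i.succ : ZMod (v 0)))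

theorem good_def {E : FR (Fin d ⊕ Fin d ⊕ Fin e)} {F : Fin d → FF (Fin d ⊕ Fin d ⊕ Fin e)}
    (hE : PRQ E) (hF : ∀ i, PRF (F i)) : Delta0 (e + 1) (Good E F) :=
  prq_delta (prq_gR hE hF) (n := e + 1) (p := fun v => v 0) (a := fun i v => v i.succ)
    (DFun.proj 0) fun i => DFun.proj i.succ

/-- good parameters -/
structure Par (E : FR (Fin d ⊕ Fin d ⊕ Fin e)) (F : Fin d → FF (Fin d ⊕ Fin d ⊕ Fin e)) where
  v : Fin (e + 1) → ℕ
  good : Good E F v

section

variable {E : FR (Fin d ⊕ Fin d ⊕ Fin e)} {F : Fin d → FF (Fin d ⊕ Fin d ⊕ Fin e)}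

/-- the prime -/
abbrev Par.p (x : Par E F) : ℕ := x.v 0

instance (x : Par E F) : Fact x.p.Prime := ⟨x.good.choose⟩

/-- the parameters in the field -/
def Par.a (x : Par E F) : Fin e → ZMod x.p := fun i => (x.v i.succ : ZMod x.p)

theorem Par.rel (x : Par E F) : GRel (eR E (ZMod x.p) x.a) (eF F (ZMod x.p) x.a) :=
  x.good.choose_spec

/-- `v` if `v` is good, and `x₀` otherwise -/
def par (x₀ : Par E F) (v : Fin (e + 1) → ℕ) : Par E F := if h : Good E F v then ⟨v, h⟩ else x₀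

theorem par_def (hE : PRQ E) (hF : ∀ i, PRF (F i)) (x₀ : Par E F) (i : Fin (e + 1)) :
    DFun (e + 1) (fun v => (par x₀ v).v i) := by
  have h : DFun (e + 1) (fun v => if Good E F v then v i else x₀.v i) :=
    DFun.ite (good_def hE hF) (DFun.proj i) (DFun.const _)
  have e : (fun v => (par x₀ v).v i) = (fun v => if Good E F v then v i else x₀.v i) := by
    funext v
    unfold par
    split_ifs <;> rfl
  rw [e]
  exact h

/-- the vector with the homogeneous coordinates `x` -/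
def dh {k : Type} [Field k] (x : Fin (d + 1) → k) : Fin d → k := fun i => x i.succ * (x 0)⁻¹

/-- representatives -/
def XF (E : FR (Fin d ⊕ Fin d ⊕ Fin e)) : FR (Fin (d + 1) ⊕ Fin e) := fun k _ u =>
  ¬ u (.inl 0) = 0 ∧ eR E k (fun i => u (.inr i)) (dh fun i => u (.inl i)) (dh fun i => u (.inl i))

/-- equality of classes of representatives -/
def EF (E : FR (Fin d ⊕ Fin d ⊕ Fin e)) : FR (Fin (d + 1) ⊕ Fin (d + 1) ⊕ Fin e) := fun k _ u =>
  (¬ u (.inl 0) = 0 ∧ ¬ u (.inr (.inl 0)) = 0) ∧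
  eR E k (fun i => u (.inr (.inr i))) (dh fun i => u (.inl i)) (dh fun i => u (.inr (.inl i)))

/-- the law -/
def LF (F : Fin d → FF (Fin d ⊕ Fin d ⊕ Fin e)) (i : Fin (d + 1)) :
    FF (Fin (d + 1) ⊕ Fin (d + 1) ⊕ Fin e) := fun k _ u =>
  Fin.cases (motive := fun _ => k) 1
    (fun j => eF F k (fun i => u (.inr (.inr i))) (dh fun i => u (.inl i))
      (dh fun i => u (.inr (.inl i))) j) i

private theorem dh_pr {ι : Type} {A : Fin (d + 1) → FF ι} (hA : ∀ i, PRF (A i)) (i : Fin d) :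
    PRF (fun k _ x => dh (fun i => A i k x) i) := (hA i.succ).mul (hA 0).inv

private theorem ne0 {ι : Type} {A : FF ι} (hA : PRF A) : PRQ (fun k _ x => ¬ A k x = 0) :=
  (PRQ.eq hA PRF.zero).not

/-- the first block of homogeneous coordinates -/
private def V1 {ι : Type} {n : ℕ} : Fin n → FF (Fin n ⊕ ι) := fun i _ _ x => x (Sum.inl i)

/-- the second block of homogeneous coordinates -/
private def V2 {κ ι : Type} {n : ℕ} : Fin n → FF (κ ⊕ Fin n ⊕ ι) :=
  fun i _ _ x => x (Sum.inr (Sum.inl i))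

private theorem V1_pr {ι : Type} {n : ℕ} (i : Fin n) : PRF (V1 (ι := ι) i) := PRF.var _

private theorem V2_pr {κ ι : Type} {n : ℕ} (i : Fin n) : PRF (V2 (κ := κ) (ι := ι) i) := PRF.var _

theorem XF_pr (hE : PRQ E) : PRQ (XF E) :=
  (ne0 (V1_pr (0 : Fin (d + 1)))).and (eR_comp hE (dh_pr V1_pr) (dh_pr V1_pr)
    (C := fun i _ _ x => x (Sum.inr i)) fun _ => PRF.var _)

theorem EF_pr (hE : PRQ E) : PRQ (EF E) :=
  ((ne0 (V1_pr (0 : Fin (d + 1)))).and (ne0 (V2_pr (0 : Fin (d + 1))))).and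
    (eR_comp hE (dh_pr V1_pr) (dh_pr V2_pr)
    (C := fun i _ _ x => x (Sum.inr (Sum.inr i))) fun _ => PRF.var _)

theorem LF_pr (hF : ∀ i, PRF (F i)) (i : Fin (d + 1)) : PRF (LF F i) := by
  refine Fin.cases ?_ (fun j => ?_) i
  · exact PRF.one
  · exact eF_comp hF (dh_pr V1_pr) (dh_pr V2_pr)
      (C := fun i _ _ x => x (Sum.inr (Sum.inr i))) (fun _ => PRF.var _) j

theorem dh_smul {k : Type} [Field k] {x y : Fin (d + 1) → k} {z : k} (hz : z ≠ 0)
    (h : ∀ i, x i = z * y i) : dh x = dh y := by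
  funext i
  unfold dh
  rw [h, h 0, mul_inv]
  field_simp

/-- the group of the parameters -/
abbrev Par.G (x : Par E F) : Type := x.rel.Q

instance (x : Par E F) : Group x.G := x.rel.group

/-- the class of a vector -/
def Par.cls (x : Par E F) (u : Fin (d + 1) → ZMod x.p) : x.G :=
  if h : eR E (ZMod x.p) x.a (dh u) (dh u) then x.rel.cl (dh u) h else 1

/-- the set of representatives -/
def Par.X (x : Par E F) : Set (Fin (d + 1) → ZMod x.p) :=
  {u | ¬ u 0 = 0 ∧ eR E (ZMod x.p) x.a (dh u) (dh u)}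

theorem Par.onto (x : Par E F) (g : x.G) : ∃ u ∈ x.X, x.cls u = g := by
  obtain ⟨u, hu, rfl⟩ := x.rel.ind g
  have e : dh (Fin.cons (1 : ZMod x.p) u : Fin (d + 1) → ZMod x.p) = u := by
    funext i
    simp [dh]
  refine ⟨Fin.cons 1 u, ⟨?_, ?_⟩, ?_⟩
  · simp
  · rw [e]
    exact hu
  · unfold Par.cls
    rw [dif_pos (by rw [e]; exact hu)]
    refine (x.rel.cl_eq _ _).2 ?_
    rw [e]
    exact hu

theorem Par.eq_iff (x : Par E F) (u w : Fin (d + 1) → ZMod x.p) :
    (u ∈ x.X ∧ w ∈ x.X ∧ x.cls u = x.cls w) ↔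
      ((¬ u 0 = 0 ∧ ¬ w 0 = 0) ∧ eR E (ZMod x.p) x.a (dh u) (dh w)) := by
  constructor
  · rintro ⟨hu, hw, h⟩
    refine ⟨⟨hu.1, hw.1⟩, ?_⟩
    unfold Par.cls at h
    rw [dif_pos hu.2, dif_pos hw.2] at h
    exact (x.rel.cl_eq _ _).1 h
  · rintro ⟨⟨h1, h2⟩, h3⟩
    have h4 := x.rel.left h3
    have h5 := x.rel.left (x.rel.symm _ _ h3)
    refine ⟨⟨h1, h4⟩, ⟨h2, h5⟩, ?_⟩
    unfold Par.cls
    rw [dif_pos h4, dif_pos h5]
    exact (x.rel.cl_eq _ _).2 h3

theorem Par.law (x : Par E F) {u w t : Fin (d + 1) → ZMod x.p} (hu : u ∈ x.X) (hw : w ∈ x.X)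
    {z : ZMod x.p} (hz : z ≠ 0) (h : ∀ i, t i = z * LF F i (ZMod x.p)
      (Sum.elim u (Sum.elim w x.a))) : t ∈ x.X ∧ x.cls t = x.cls u * x.cls w := by
  have e1 : dh t = eF F (ZMod x.p) x.a (dh u) (dh w) := by
    rw [dh_smul hz h]
    funext i
    show LF F i.succ (ZMod x.p) (Sum.elim u (Sum.elim w x.a)) *
      (LF F 0 (ZMod x.p) (Sum.elim u (Sum.elim w x.a)))⁻¹ = _
    have e2 : LF F 0 (ZMod x.p) (Sum.elim u (Sum.elim w x.a)) = 1 := rfl
    rw [e2, inv_one, mul_one]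
    rfl
  have h1 : eR E (ZMod x.p) x.a (dh t) (dh t) := by
    rw [e1]
    exact x.rel.mem hu.2 hw.2
  refine ⟨⟨?_, h1⟩, ?_⟩
  · rw [h 0]
    have e2 : LF F 0 (ZMod x.p) (Sum.elim u (Sum.elim w x.a)) = 1 := rfl
    rw [e2, mul_one]
    exact hz
  · unfold Par.cls
    rw [dif_pos h1, dif_pos hu.2, dif_pos hw.2, x.rel.mul_cl]
    refine (x.rel.cl_eq _ _).2 ?_
    rw [e1]
    exact x.rel.mem hu.2 hw.2

private theorem par_comp (hE : PRQ E) (hF : ∀ i, PRF (F i)) (x₀ : Par E F) {m : ℕ}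
    {v : Fin (e + 1) → (Fin m → ℕ) → ℕ} (hv : ∀ i, DFun m (v i)) (i : Fin (e + 1)) :
    DFun m (fun w => (par x₀ (fun j => v j w)).v i) :=
  (par_def hE hF x₀ i).comp hv

private theorem dX_aux (hE : PRQ E) (hF : ∀ i, PRF (F i)) (x₀ : Par E F) :
    Delta0 (e + 1 + 1) (fun w => vc (par x₀ fun i => w i.succ).p (d + 1) (w 0) ∈
      (par x₀ fun i => w i.succ).X) := by
  have h := prq_delta (XF_pr (d := d) hE) (n := e + 1 + 1)
    (p := fun w => (par x₀ fun i => w i.succ).v 0)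
    (a := Sum.elim (fun i w => w 0 / (par x₀ fun i => w i.succ).v 0 ^ (i : ℕ))
      (fun i w => (par x₀ fun i => w i.succ).v i.succ))
    (par_comp hE hF x₀ (fun i => DFun.proj i.succ) 0) (by
      rintro (i | i)
      · exact PTr.DFun.divPos (DFun.proj 0) (PTr.DFun.powConst
          (par_comp hE hF x₀ (fun i => DFun.proj i.succ) 0) _)
          fun w => pow_pos (par x₀ _).good.choose.pos _
      · exact par_comp hE hF x₀ (fun i => DFun.proj i.succ) i.succ)
  refine h.of_iff fun w => ?_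
  constructor
  · intro h1
    exact ⟨(par x₀ fun i => w i.succ).good.choose, h1⟩
  · rintro ⟨_, h1⟩
    exact h1

private theorem dE_aux (hE : PRQ E) (hF : ∀ i, PRF (F i)) (x₀ : Par E F) :
    Delta0 (e + 1 + 1 + 1) (fun w =>
      vc (par x₀ fun i => w i.succ.succ).p (d + 1) (w 0) ∈ (par x₀ fun i => w i.succ.succ).X ∧
      vc (par x₀ fun i => w i.succ.succ).p (d + 1) (w 1) ∈ (par x₀ fun i => w i.succ.succ).X ∧
      (par x₀ fun i => w i.succ.succ).cls
        (vc (par x₀ fun i => w i.succ.succ).p (d + 1) (w 0)) =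
      (par x₀ fun i => w i.succ.succ).cls
        (vc (par x₀ fun i => w i.succ.succ).p (d + 1) (w 1))) := by
  have h := prq_delta (EF_pr (d := d) hE) (n := e + 1 + 1 + 1)
    (p := fun w => (par x₀ fun i => w i.succ.succ).v 0)
    (a := Sum.elim (fun i w => w 0 / (par x₀ fun i => w i.succ.succ).v 0 ^ (i : ℕ))
      (Sum.elim (fun i w => w 1 / (par x₀ fun i => w i.succ.succ).v 0 ^ (i : ℕ))
      (fun i w => (par x₀ fun i => w i.succ.succ).v i.succ)))
    (par_comp hE hF x₀ (fun i => DFun.proj i.succ.succ) 0) (by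
      rintro (i | i | i)
      · exact PTr.DFun.divPos (DFun.proj 0) (PTr.DFun.powConst
          (par_comp hE hF x₀ (fun i => DFun.proj i.succ.succ) 0) _)
          fun w => pow_pos (par x₀ _).good.choose.pos _
      · exact PTr.DFun.divPos (DFun.proj 1) (PTr.DFun.powConst
          (par_comp hE hF x₀ (fun i => DFun.proj i.succ.succ) 0) _)
          fun w => pow_pos (par x₀ _).good.choose.pos _
      · exact par_comp hE hF x₀ (fun i => DFun.proj i.succ.succ) i.succ)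
  refine h.of_iff fun w => ?_
  rw [Par.eq_iff]
  constructor
  · intro h1
    exact ⟨(par x₀ fun i => w i.succ.succ).good.choose, h1⟩
  · rintro ⟨_, h1⟩
    exact h1

/-- the family of groups -/
theorem fam_ex (hE : PRQ E) (hF : ∀ i, PRF (F i)) (x₀ : Par E F) :
    ∃ (τ : ℕ) (Φ : CovFam (e + 1) (d + 1) e τ), ∀ v, Φ.G v = (par x₀ v).G ∧
      (∀ a b : Φ.G v, a * b = b * a) := by
  obtain ⟨τ, T, L, hL⟩ := law_of_prf (d := d + 1) (e := e) (G := LF F) (LF_pr hF)
  refine ⟨τ, {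
    G := fun v => (par x₀ v).G
    grp := fun v => inferInstance
    m := fun v => (par x₀ v).p
    hm := par_def hE hF x₀ 0
    mpos := fun v => (par x₀ v).good.choose.pos
    c := fun k v => (par x₀ v).v k.succ
    hc := fun k => par_def hE hF x₀ k.succ
    X := fun v => (par x₀ v).X
    cls := fun v => (par x₀ v).cls
    onto := fun v => (par x₀ v).onto
    T := T
    F := L
    law := ?_
    dX := dX_aux hE hF x₀
    dE := dE_aux hE hF x₀ }, fun v => ⟨rfl, (par x₀ v).rel.mul_comm'⟩⟩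
  intro v x y hx hy
  obtain ⟨z, hz⟩ := hL (ZMod (par x₀ v).p) (par x₀ v).a x y
  exact (par x₀ v).law hx hy z.ne_zero hz

end

/-- **The order of a first-order family of commutative groups over prime fields is definable.** -/
theorem card_fo1 {X : FR (Fin d ⊕ Fin e)} {E : FR (Fin d ⊕ Fin d ⊕ Fin e)}
    {F : Fin d → FF (Fin d ⊕ Fin d ⊕ Fin e)} (hX : PRQ X) (hE : PRQ E) (hF : ∀ i, PRF (F i)) :
    ∃ N : (Fin (e + 1) → ℕ) → ℕ, DFun (e + 1) N ∧
      ∀ (v : Fin (e + 1) → ℕ) [Fact (v 0).Prime] (G : Type) [CommGroup G]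
        (cls : (Fin d → ZMod (v 0)) → G),
        (∀ g, ∃ x, X (ZMod (v 0)) (Sum.elim x fun i => (v i.succ : ZMod (v 0))) ∧ cls x = g) →
        (∀ x y, X (ZMod (v 0)) (Sum.elim x fun i => (v i.succ : ZMod (v 0))) →
          X (ZMod (v 0)) (Sum.elim y fun i => (v i.succ : ZMod (v 0))) →
          X (ZMod (v 0)) (Sum.elim (eF F (ZMod (v 0)) (fun i => (v i.succ : ZMod (v 0))) x y)
            fun i => (v i.succ : ZMod (v 0))) ∧
          cls (eF F (ZMod (v 0)) (fun i => (v i.succ : ZMod (v 0))) x y) = cls x * cls y) →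
        (∀ x y, X (ZMod (v 0)) (Sum.elim x fun i => (v i.succ : ZMod (v 0))) →
          X (ZMod (v 0)) (Sum.elim y fun i => (v i.succ : ZMod (v 0))) →
          (E (ZMod (v 0)) (Sum.elim x (Sum.elim y fun i => (v i.succ : ZMod (v 0)))) ↔
            cls x = cls y)) →
        N v = Nat.card G := by
  set E' : FR (Fin d ⊕ Fin d ⊕ Fin e) := fun k _ u =>
    X k (Sum.elim (fun i => u (.inl i)) fun i => u (.inr (.inr i))) ∧
    X k (Sum.elim (fun i => u (.inr (.inl i))) fun i => u (.inr (.inr i))) ∧ E k u with hE'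
  have hQ : PRQ E' := by
    have h1 : PRQ (ι := Fin d ⊕ Fin d ⊕ Fin e) (fun k _ u =>
        X k (Sum.elim (fun i => u (.inl i)) fun i => u (.inr (.inr i)))) := by
      refine (hX.comp (G := Sum.elim (fun i k _ u => u (.inl i))
        (fun i k _ u => u (.inr (.inr i)))) ?_).congr fun k _ x => ?_
      · rintro (i | i) <;> exact PRF.var _
      · refine iff_of_eq (congrArg (X k) ?_)
        funext j
        rcases j with i | i <;> rfl
    have h2 : PRQ (ι := Fin d ⊕ Fin d ⊕ Fin e) (fun k _ u =>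
        X k (Sum.elim (fun i => u (.inr (.inl i))) fun i => u (.inr (.inr i)))) := by
      refine (hX.comp (G := Sum.elim (fun i k _ u => u (.inr (.inl i)))
        (fun i k _ u => u (.inr (.inr i)))) ?_).congr fun k _ x => ?_
      · rintro (i | i) <;> exact PRF.var _
      · refine iff_of_eq (congrArg (X k) ?_)
        funext j
        rcases j with i | i <;> rfl
    exact h1.and (h2.and hE)
  have key : ∀ (v : Fin (e + 1) → ℕ) [Fact (v 0).Prime] (G : Type) [CommGroup G]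
      (cls : (Fin d → ZMod (v 0)) → G),
      (∀ g, ∃ x, X (ZMod (v 0)) (Sum.elim x fun i => (v i.succ : ZMod (v 0))) ∧ cls x = g) →
      (∀ x y, X (ZMod (v 0)) (Sum.elim x fun i => (v i.succ : ZMod (v 0))) →
        X (ZMod (v 0)) (Sum.elim y fun i => (v i.succ : ZMod (v 0))) →
        X (ZMod (v 0)) (Sum.elim (eF F (ZMod (v 0)) (fun i => (v i.succ : ZMod (v 0))) x y)
          fun i => (v i.succ : ZMod (v 0))) ∧
        cls (eF F (ZMod (v 0)) (fun i => (v i.succ : ZMod (v 0))) x y) = cls x * cls y) →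
      (∀ x y, X (ZMod (v 0)) (Sum.elim x fun i => (v i.succ : ZMod (v 0))) →
        X (ZMod (v 0)) (Sum.elim y fun i => (v i.succ : ZMod (v 0))) →
        (E (ZMod (v 0)) (Sum.elim x (Sum.elim y fun i => (v i.succ : ZMod (v 0)))) ↔
          cls x = cls y)) →
      (∀ g, ∃ x, eR E' (ZMod (v 0)) (fun i => (v i.succ : ZMod (v 0))) x x ∧ cls x = g) ∧
      (∀ x y, eR E' (ZMod (v 0)) (fun i => (v i.succ : ZMod (v 0))) x x →
        eR E' (ZMod (v 0)) (fun i => (v i.succ : ZMod (v 0))) y y →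
        eR E' (ZMod (v 0)) (fun i => (v i.succ : ZMod (v 0)))
          (eF F (ZMod (v 0)) (fun i => (v i.succ : ZMod (v 0))) x y)
          (eF F (ZMod (v 0)) (fun i => (v i.succ : ZMod (v 0))) x y) ∧
        cls (eF F (ZMod (v 0)) (fun i => (v i.succ : ZMod (v 0))) x y) = cls x * cls y) ∧
      (∀ x y, eR E' (ZMod (v 0)) (fun i => (v i.succ : ZMod (v 0))) x y ↔
        eR E' (ZMod (v 0)) (fun i => (v i.succ : ZMod (v 0))) x x ∧
        eR E' (ZMod (v 0)) (fun i => (v i.succ : ZMod (v 0))) y y ∧ cls x = cls y) := by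
    intro v _ G _ cls h1 h2 h3
    have h4 : ∀ x, eR E' (ZMod (v 0)) (fun i => (v i.succ : ZMod (v 0))) x x ↔
        X (ZMod (v 0)) (Sum.elim x fun i => (v i.succ : ZMod (v 0))) := by
      intro x
      constructor
      · intro h
        exact h.1
      · intro h
        exact ⟨h, h, (h3 x x h h).2 rfl⟩
    refine ⟨fun g => ?_, fun x y hx hy => ?_, fun x y => ?_⟩
    · obtain ⟨x, hx, e⟩ := h1 g
      exact ⟨x, (h4 x).2 hx, e⟩
    · obtain ⟨h5, h6⟩ := h2 x y ((h4 x).1 hx) ((h4 y).1 hy)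
      exact ⟨(h4 _).2 h5, h6⟩
    · constructor
      · intro h
        exact ⟨(h4 x).2 h.1, (h4 y).2 h.2.1, (h3 x y h.1 h.2.1).1 h.2.2⟩
      · rintro ⟨hx, hy, e⟩
        have hx' := (h4 x).1 hx
        have hy' := (h4 y).1 hy
        exact ⟨hx', hy', (h3 x y hx' hy').2 e⟩
  by_cases hne : ∃ v, Good E' F v
  · obtain ⟨v₀, h₀⟩ := hne
    obtain ⟨τ, Φ, hΦ⟩ := fam_ex hQ hF ⟨v₀, h₀⟩
    refine ⟨fun v => Nat.card (Φ.G v), Φ.card fun v => (hΦ v).2, ?_⟩
    intro v hv G _ cls h1 h2 h3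
    obtain ⟨k1, k2, k3⟩ := key v G cls h1 h2 h3
    have hg : Good E' F v := ⟨hv.out, grel_of cls k1 k2 k3⟩
    have e1 : par (⟨v₀, h₀⟩ : Par E' F) v = ⟨v, hg⟩ := dif_pos hg
    show Nat.card (Φ.G v) = Nat.card G
    rw [(hΦ v).1, e1]
    exact card_of cls k1 k3 _
  · refine ⟨fun _ => 0, DFun.const 0, ?_⟩
    intro v hv G _ cls h1 h2 h3
    obtain ⟨k1, k2, k3⟩ := key v G cls h1 h2 h3
    exact absurd ⟨v, hv.out, grel_of cls k1 k2 k3⟩ hne

end Pool.Agent.FOG
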