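import Mathlib

/-!
# Commutative groups given by a partial equivalence relation and an operation
-/

set_option autoImplicit false

namespace Pool.Agent.FOG

/-- `E` is a partial equivalence relation, `F` induces the law of a commutative group. -/
structure GRel {V : Type} (E : V → V → Prop) (F : V → V → V) : Prop where
  symm : ∀ x y, E x y → E y x
  trans : ∀ x y z, E x y → E y z → E x z
  compat : ∀ x x' y y', E x x' → E y y' → E (F x y) (F x' y')
  assoc : ∀ x y z, E x x → E y y → E z z → E (F (F x y) z) (F x (F y z))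
  comm : ∀ x y, E x x → E y y → E (F x y) (F y x)
  unit : ∃ e, E e e ∧ ∀ x, E x x → E (F e x) x ∧ ∃ y, E y y ∧ E (F y x) e

variable {V : Type} {E : V → V → Prop} {F : V → V → V}

theorem GRel.left (h : GRel E F) {x y : V} (e : E x y) : E x x :=
  h.trans _ _ _ e (h.symm _ _ e)

/-- the equivalence relation on the domain -/
def GRel.setoid (h : GRel E F) : Setoid {x : V // E x x} where
  r x y := E x y
  iseqv := ⟨fun x => x.2, fun e => h.symm _ _ e, fun e f => h.trans _ _ _ e f⟩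

/-- the group -/
def GRel.Q (h : GRel E F) : Type := Quotient h.setoid

theorem GRel.mem (h : GRel E F) {x y : V} (hx : E x x) (hy : E y y) : E (F x y) (F x y) :=
  h.compat _ _ _ _ hx hy

/-- the class of an element of the domain -/
def GRel.cl (h : GRel E F) (x : V) (hx : E x x) : h.Q := Quotient.mk h.setoid ⟨x, hx⟩

theorem GRel.cl_eq (h : GRel E F) {x y : V} (hx : E x x) (hy : E y y) :
    h.cl x hx = h.cl y hy ↔ E x y :=
  ⟨fun e => Quotient.exact e, fun e => Quotient.sound e⟩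

theorem GRel.ind (h : GRel E F) (q : h.Q) : ∃ x hx, h.cl x hx = q := by
  obtain ⟨⟨x, hx⟩, rfl⟩ := Quotient.exists_rep q
  exact ⟨x, hx, rfl⟩

/-- the law -/
def GRel.op (h : GRel E F) (p q : h.Q) : h.Q :=
  Quotient.map₂ (sa := h.setoid) (sb := h.setoid) (sc := h.setoid)
    (fun (x y : {x : V // E x x}) => (⟨F x y, h.mem x.2 y.2⟩ : {x : V // E x x}))
    (fun _ _ e _ _ f => h.compat _ _ _ _ e f) p q

theorem GRel.op_cl (h : GRel E F) {x y : V} (hx : E x x) (hy : E y y) :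
    h.op (h.cl x hx) (h.cl y hy) = h.cl (F x y) (h.mem hx hy) := rfl

/-- the neutral element -/
noncomputable def GRel.e (h : GRel E F) : h.Q := h.cl h.unit.choose h.unit.choose_spec.1

theorem GRel.exists_iv (h : GRel E F) (p : h.Q) : ∃ q, h.op q p = h.e := by
  obtain ⟨x, hx, rfl⟩ := h.ind p
  obtain ⟨y, hy, e⟩ := (h.unit.choose_spec.2 x hx).2
  exact ⟨h.cl y hy, (h.cl_eq _ _).2 e⟩

noncomputable instance GRel.group (h : GRel E F) : Group h.Q :=
  letI : Mul h.Q := ⟨h.op⟩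
  letI : One h.Q := ⟨h.e⟩
  letI : Inv h.Q := ⟨fun p => (h.exists_iv p).choose⟩
  Group.ofLeftAxioms
    (by
      intro a b c
      obtain ⟨x, hx, rfl⟩ := h.ind a
      obtain ⟨y, hy, rfl⟩ := h.ind b
      obtain ⟨z, hz, rfl⟩ := h.ind c
      exact (h.cl_eq _ _).2 (h.assoc x y z hx hy hz))
    (by
      intro a
      obtain ⟨x, hx, rfl⟩ := h.ind a
      exact (h.cl_eq _ _).2 (h.unit.choose_spec.2 x hx).1)
    (fun a => (h.exists_iv a).choose_spec)

theorem GRel.mul_cl (h : GRel E F) {x y : V} (hx : E x x) (hy : E y y) :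
    h.cl x hx * h.cl y hy = h.cl (F x y) (h.mem hx hy) := rfl

theorem GRel.mul_comm' (h : GRel E F) (a b : h.Q) : a * b = b * a := by
  obtain ⟨x, hx, rfl⟩ := h.ind a
  obtain ⟨y, hy, rfl⟩ := h.ind b
  exact (h.cl_eq _ _).2 (h.comm x y hx hy)

/-- A group with representatives defines such a relation. -/
theorem grel_of {G : Type} [CommGroup G] (cls : V → G) (h1 : ∀ g, ∃ x, E x x ∧ cls x = g)
    (h2 : ∀ x y, E x x → E y y → E (F x y) (F x y) ∧ cls (F x y) = cls x * cls y)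
    (h3 : ∀ x y, E x y ↔ E x x ∧ E y y ∧ cls x = cls y) : GRel E F where
  symm x y e := by
    obtain ⟨a, b, c⟩ := (h3 x y).1 e
    exact (h3 y x).2 ⟨b, a, c.symm⟩
  trans x y z e f := by
    obtain ⟨a, b, c⟩ := (h3 x y).1 e
    obtain ⟨a', b', c'⟩ := (h3 y z).1 f
    exact (h3 x z).2 ⟨a, b', c.trans c'⟩
  compat x x' y y' e f := by
    obtain ⟨a, b, c⟩ := (h3 x x').1 e
    obtain ⟨a', b', c'⟩ := (h3 y y').1 f
    refine (h3 _ _).2 ⟨(h2 x y a a').1, (h2 x' y' b b').1, ?_⟩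
    rw [(h2 x y a a').2, (h2 x' y' b b').2, c, c']
  assoc x y z hx hy hz := by
    have a := h2 x y hx hy
    have b := h2 y z hy hz
    refine (h3 _ _).2 ⟨(h2 _ _ a.1 hz).1, (h2 _ _ hx b.1).1, ?_⟩
    rw [(h2 _ _ a.1 hz).2, (h2 _ _ hx b.1).2, a.2, b.2, mul_assoc]
  comm x y hx hy := by
    refine (h3 _ _).2 ⟨(h2 _ _ hx hy).1, (h2 _ _ hy hx).1, ?_⟩
    rw [(h2 _ _ hx hy).2, (h2 _ _ hy hx).2, mul_comm]
  unit := by
    obtain ⟨e, he, e1⟩ := h1 1
    refine ⟨e, he, fun x hx => ⟨?_, ?_⟩⟩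
    · refine (h3 _ _).2 ⟨(h2 _ _ he hx).1, hx, ?_⟩
      rw [(h2 _ _ he hx).2, e1, one_mul]
    · obtain ⟨y, hy, e2⟩ := h1 (cls x)⁻¹
      refine ⟨y, hy, (h3 _ _).2 ⟨(h2 _ _ hy hx).1, he, ?_⟩⟩
      rw [(h2 _ _ hy hx).2, e1, e2, inv_mul_cancel]

theorem card_of {G : Type} [CommGroup G] (cls : V → G) (h1 : ∀ g, ∃ x, E x x ∧ cls x = g)
    (h3 : ∀ x y, E x y ↔ E x x ∧ E y y ∧ cls x = cls y) (h : GRel E F) :
    Nat.card h.Q = Nat.card G := by
  refine Nat.card_congr (Equiv.ofBijective (fun q : h.Q => Quotient.lift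
    (fun x : {x : V // E x x} => cls x) (fun x y e => ((h3 _ _).1 e).2.2) q) ⟨?_, ?_⟩)
  · intro a b e
    obtain ⟨x, hx, rfl⟩ := h.ind a
    obtain ⟨y, hy, rfl⟩ := h.ind b
    exact (h.cl_eq _ _).2 ((h3 _ _).2 ⟨hx, hy, e⟩)
  · intro g
    obtain ⟨x, hx, e⟩ := h1 g
    exact ⟨h.cl x hx, e⟩

end Pool.Agent.FOG
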